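import Pool.Agent.Helper48.AX.Defs

set_option autoImplicit false

open Complex

noncomputable section

namespace AX

/-- if the circumcentre lies in the cone at a vertex then the circumradius is small -/
theorem q_cone {r b1 b2 c1 c2 o1 o2 e1 e2 α β : ℝ} (hα : 0 ≤ α) (hβ : 0 ≤ β)
    (ho1 : o1 = α * b1 + β * c1) (ho2 : o2 = α * b2 + β * c2)
    (ho : 0 < o1 ^ 2 + o2 ^ 2)
    (he : e1 ^ 2 + e2 ^ 2 = 1)
    (hb : b1 ^ 2 + b2 ^ 2 = 2 * (b1 * o1 + b2 * o2))
    (hc : c1 ^ 2 + c2 ^ 2 = 2 * (c1 * o1 + c2 * o2))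
    (hbe : b1 ^ 2 + b2 ^ 2 < 2 * r * (b1 * e1 + b2 * e2))
    (hce : c1 ^ 2 + c2 ^ 2 < 2 * r * (c1 * e1 + c2 * e2)) :
    o1 ^ 2 + o2 ^ 2 < r ^ 2 := by
  have hpos : 0 < α ∨ 0 < β := by
    by_contra hcon
    push Not at hcon
    have h1 : α = 0 := le_antisymm hcon.1 hα
    have h2 : β = 0 := le_antisymm hcon.2 hβ
    rw [ho1, ho2, h1, h2] at ho
    norm_num at ho
  set N := o1 ^ 2 + o2 ^ 2 with hN
  have h1 : α * (2 * r * (b1 * e1 + b2 * e2) - (b1 ^ 2 + b2 ^ 2)) +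
      β * (2 * r * (c1 * e1 + c2 * e2) - (c1 ^ 2 + c2 ^ 2)) > 0 := by
    rcases hpos with h | h
    · have := mul_pos h (sub_pos.2 hbe)
      have := mul_nonneg hβ (sub_pos.2 hce).le
      linarith
    · have := mul_nonneg hα (sub_pos.2 hbe).le
      have := mul_pos h (sub_pos.2 hce)
      linarith
  have h2 : α * (2 * r * (b1 * e1 + b2 * e2) - (b1 ^ 2 + b2 ^ 2)) +
      β * (2 * r * (c1 * e1 + c2 * e2) - (c1 ^ 2 + c2 ^ 2)) =
      2 * (r * (o1 * e1 + o2 * e2) - N) := by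
    rw [hb, hc]
    have : N = o1 * (α * b1 + β * c1) + o2 * (α * b2 + β * c2) := by
      rw [← ho1, ← ho2, hN]; ring
    rw [this, ho1, ho2]
    ring
  have h3 : N < r * (o1 * e1 + o2 * e2) := by linarith
  have h4 : (o1 * e1 + o2 * e2) ^ 2 ≤ N := by
    have : N * (e1 ^ 2 + e2 ^ 2) - (o1 * e1 + o2 * e2) ^ 2 = (o1 * e2 - o2 * e1) ^ 2 := by
      rw [hN]; ring
    rw [he] at this
    nlinarith [sq_nonneg (o1 * e2 - o2 * e1)]
  have h5 : N ^ 2 < (r * (o1 * e1 + o2 * e2)) ^ 2 := by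
    apply pow_lt_pow_left₀ h3 ho.le (by norm_num)
  have h6 : N ^ 2 < r ^ 2 * N := by
    calc N ^ 2 < (r * (o1 * e1 + o2 * e2)) ^ 2 := h5
      _ = r ^ 2 * (o1 * e1 + o2 * e2) ^ 2 := by ring
      _ ≤ r ^ 2 * N := by gcongr
  nlinarith

/-- circumradius of a triangle with supporting disks at its vertices -/
theorem q_rad {r h p u e1 e2 f1 f2 g1 g2 : ℝ} (hh : 0 < h) (hu : 0 < u)
    (he : e1 ^ 2 + e2 ^ 2 = 1) (hf : f1 ^ 2 + f2 ^ 2 = 1) (hg : g1 ^ 2 + g2 ^ 2 = 1)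
    (a1 : h ^ 2 < 2 * r * (h * e1)) (a2 : p ^ 2 + u ^ 2 < 2 * r * (p * e1 + u * e2))
    (b1 : h ^ 2 < 2 * r * (-h * f1))
    (b2 : (p - h) ^ 2 + u ^ 2 < 2 * r * ((p - h) * f1 + u * f2))
    (c1 : p ^ 2 + u ^ 2 < 2 * r * (-p * g1 + -u * g2))
    (c2 : (h - p) ^ 2 + u ^ 2 < 2 * r * ((h - p) * g1 + -u * g2)) :
    (h / 2) ^ 2 + ((p ^ 2 + u ^ 2 - p * h) / (2 * u)) ^ 2 < r ^ 2 := by
  set k := (p ^ 2 + u ^ 2 - p * h) / (2 * u) with hk
  have hku : 2 * u * k = p ^ 2 + u ^ 2 - p * h := by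
    rw [hk]; field_simp
  have hh4 : 0 < (h / 2) ^ 2 := by positivity
  rcases lt_or_ge p 0 with hp | hp
  · -- vertex w
    have hk0 : 0 ≤ k := by
      have : 0 ≤ 2 * u * k := by rw [hku]; nlinarith
      by_contra hcon
      push Not at hcon
      nlinarith
    refine q_cone (b1 := h) (b2 := 0) (c1 := p) (c2 := u) (o1 := h / 2) (o2 := k) (e1 := e1)
      (e2 := e2) (α := 1 / 2 - p * k / (u * h)) (β := k / u) ?_ ?_ ?_ ?_ ?_ he ?_ ?_ ?_ ?_
    · have : p * k / (u * h) ≤ 0 := by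
        apply div_nonpos_of_nonpos_of_nonneg
        · nlinarith
        · positivity
      linarith
    · positivity
    · field_simp; ring
    · field_simp; ring
    · positivity
    · ring
    · linarith
    · linarith
    · linarith
  · rcases lt_or_ge h p with hp' | hp'
    · -- vertex y
      have hk0 : 0 ≤ k := by
        have : 0 ≤ 2 * u * k := by rw [hku]; nlinarith
        by_contra hcon
        push Not at hcon
        nlinarith
      have := q_cone (b1 := -h) (b2 := 0) (c1 := p - h) (c2 := u) (o1 := -h / 2) (o2 := k)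
        (e1 := f1) (e2 := f2) (r := r)
        (α := 1 / 2 + (p - h) * k / (u * h)) (β := k / u) ?_ ?_ ?_ ?_ ?_ hf ?_ ?_ ?_ ?_
      · calc (h / 2) ^ 2 + k ^ 2 = (-h / 2) ^ 2 + k ^ 2 := by ring
          _ < r ^ 2 := this
      · have : 0 ≤ (p - h) * k / (u * h) := by
          apply div_nonneg
          · exact mul_nonneg (by linarith) hk0
          · positivity
        linarith
      · positivity
      · field_simp; ring
      · field_simp; ring
      · nlinarith [sq_nonneg k]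
      · ring
      · nlinarith
      · linarith
      · linarith
    · -- vertex x
      have hA : 0 ≤ 1 / 2 + (p - h) * k / (u * h) := by
        have h1 : 1 / 2 + (p - h) * k / (u * h) =
            p * (u ^ 2 + (p - h) ^ 2) / (2 * u ^ 2 * h) := by
          rw [hk]; field_simp; ring
        rw [h1]
        positivity
      have hB : 0 ≤ 1 / 2 - p * k / (u * h) := by
        have h1 : 1 / 2 - p * k / (u * h) =
            (h - p) * (u ^ 2 + p ^ 2) / (2 * u ^ 2 * h) := by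
          rw [hk]; field_simp; ring
        rw [h1]
        have : 0 ≤ h - p := by linarith
        positivity
      have := q_cone (b1 := -p) (b2 := -u) (c1 := h - p) (c2 := -u) (o1 := h / 2 - p)
        (o2 := k - u) (e1 := g1) (e2 := g2) (r := r)
        (α := 1 / 2 + (p - h) * k / (u * h)) (β := 1 / 2 - p * k / (u * h)) hA hB
        ?_ ?_ ?_ hg ?_ ?_ ?_ ?_
      · have h1 : (h / 2) ^ 2 + k ^ 2 = (h / 2 - p) ^ 2 + (k - u) ^ 2 := by
          nlinarith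
        rw [h1]; exact this
      · field_simp; ring
      · field_simp; ring
      · have h1 : (h / 2) ^ 2 + k ^ 2 = (h / 2 - p) ^ 2 + (k - u) ^ 2 := by
          nlinarith
        rw [← h1]; positivity
      · nlinarith
      · nlinarith
      · nlinarith
      · nlinarith

/-- auxiliary root -/
theorem q_root {a b M : ℝ} (ha : 0 ≤ a) (hb : 0 < b) (hM : (a + b) ^ 2 < M) :
    ∃ C : ℝ, 0 < C ∧ C < 1 ∧ a ^ 2 * (1 - C) + b ^ 2 * C = M * C * (1 - C) ∧
      a * (1 - C) ≤ b * C := by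
  rcases ha.eq_or_lt with h0 | h0
  · refine ⟨1 - b ^ 2 / M, ?_, ?_, ?_, ?_⟩
    · have : b ^ 2 / M < 1 := by
        rw [div_lt_one (by nlinarith)]
        nlinarith
      linarith
    · have : 0 < b ^ 2 / M := div_pos (by positivity) (by nlinarith)
      linarith
    · have hM0 : M ≠ 0 := by nlinarith
      rw [← h0]
      field_simp
      ring
    · rw [← h0]
      have : b ^ 2 / M < 1 := by
        rw [div_lt_one (by nlinarith)]
        nlinarith
      have h1 : 0 ≤ b * (1 - b ^ 2 / M) := mul_nonneg hb.le (by linarith)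
      linarith
  · set C1 := a / (a + b) with hC1
    have hab : 0 < a + b := by linarith
    have hC10 : 0 < C1 := by positivity
    have hC11 : C1 ≤ 1 := by
      rw [hC1, div_le_one hab]; linarith
    have hcont : ContinuousOn (fun C : ℝ => a ^ 2 * (1 - C) + b ^ 2 * C - M * C * (1 - C))
        (Set.Icc C1 1) := by
      fun_prop
    have h1 : (fun C : ℝ => a ^ 2 * (1 - C) + b ^ 2 * C - M * C * (1 - C)) C1 ≤ 0 := by
      have : a ^ 2 * (1 - C1) + b ^ 2 * C1 - M * C1 * (1 - C1) =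
          a * b / (a + b) ^ 2 * ((a + b) ^ 2 - M) := by
        rw [hC1]; field_simp; ring
      simp only [this]
      apply mul_nonpos_of_nonneg_of_nonpos
      · positivity
      · linarith
    have h2 : 0 ≤ (fun C : ℝ => a ^ 2 * (1 - C) + b ^ 2 * C - M * C * (1 - C)) 1 := by
      simp; positivity
    obtain ⟨C, hC, hC0⟩ := intermediate_value_Icc hC11 hcont ⟨h1, h2⟩
    simp only at hC0
    refine ⟨C, lt_of_lt_of_le hC10 hC.1, ?_, by linarith, ?_⟩
    · rcases hC.2.eq_or_lt with h | h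
      · exfalso
        rw [h] at hC0
        have : 0 < b ^ 2 := by positivity
        linarith
      · exact h
    · have h3 : a ≤ C * (a + b) := by
        have := hC.1
        rw [hC1, div_le_iff₀ hab] at this
        exact this
      nlinarith

/-- the folding parameters -/
theorem q_fold {s t M : ℝ} (hM : (|s| + |t|) ^ 2 < M) :
    ∃ c0 s0 n2 n3 : ℝ, 0 < c0 ∧ 0 ≤ s0 ∧ c0 ^ 2 + s0 ^ 2 = 1 ∧ n2 * c0 = s ∧ n3 * s0 = t ∧
      n2 ^ 2 + n3 ^ 2 = M ∧ |n2| * s0 ≤ |n3| * c0 ∧ n3 ≠ 0 := by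
  rcases eq_or_ne t 0 with ht | ht
  · subst ht
    have h1 : s ^ 2 < M := by
      have : |s| ^ 2 = s ^ 2 := sq_abs s
      simp only [abs_zero, add_zero] at hM
      linarith
    refine ⟨1, 0, s, Real.sqrt (M - s ^ 2), one_pos, le_refl _, by norm_num, by ring, by ring,
      ?_, ?_, ?_⟩
    · rw [Real.sq_sqrt (by linarith)]; ring
    · simp
    · exact (Real.sqrt_pos.2 (by linarith)).ne'
  · obtain ⟨C, hC0, hC1, hC2, hC3⟩ := q_root (abs_nonneg s) (abs_pos.2 ht) hM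
    rw [sq_abs, sq_abs] at hC2
    have hc : 0 < Real.sqrt C := Real.sqrt_pos.2 hC0
    have hs : 0 < Real.sqrt (1 - C) := Real.sqrt_pos.2 (by linarith)
    have hc2 : Real.sqrt C ^ 2 = C := Real.sq_sqrt hC0.le
    have hs2 : Real.sqrt (1 - C) ^ 2 = 1 - C := Real.sq_sqrt (by linarith)
    refine ⟨Real.sqrt C, Real.sqrt (1 - C), s / Real.sqrt C, t / Real.sqrt (1 - C), hc, hs.le,
      by rw [hc2, hs2]; ring, by field_simp, by field_simp, ?_, ?_, ?_⟩
    · rw [div_pow, div_pow, hc2, hs2]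
      have h1 : (1 - C) ≠ 0 := by linarith
      field_simp
      linarith
    · rw [abs_div, abs_div, abs_of_pos hc, abs_of_pos hs]
      rw [div_mul_eq_mul_div, div_mul_eq_mul_div, div_le_div_iff₀ hc hs]
      calc |s| * Real.sqrt (1 - C) * Real.sqrt (1 - C) = |s| * Real.sqrt (1 - C) ^ 2 := by ring
        _ = |s| * (1 - C) := by rw [hs2]
        _ ≤ |t| * C := hC3
        _ = |t| * Real.sqrt C ^ 2 := by rw [hc2]
        _ = |t| * Real.sqrt C * Real.sqrt C := by ring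
    · exact div_ne_zero ht hs.ne'

/-- lifting the supporting direction -/
theorem q_lift {r c0 s0 n1 n2 n3 e1 e2 : ℝ} (hr : 0 < r)
    (hc : c0 ^ 2 + s0 ^ 2 = 1)
    (hn : n1 ^ 2 + n2 ^ 2 + n3 ^ 2 = 1) (he : e1 ^ 2 + e2 ^ 2 = 1) :
    ∃ m1 m2 m3 : ℝ, m1 * n1 + m2 * n2 + m3 * n3 = 0 ∧ ∀ a b : ℝ,
      a ^ 2 + b ^ 2 = 2 * r * (a * n1 + b * c0 * n2 + |b| * s0 * n3) →
      a ^ 2 + b ^ 2 < 2 * r * (a * e1 + b * e2) →
      0 < a * m1 + b * c0 * m2 + |b| * s0 * m3 := by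
  set l := e1 * n1 + e2 * c0 * n2 + |e2| * s0 * n3 with hl
  have he' : e1 ^ 2 + (e2 * c0) ^ 2 + (|e2| * s0) ^ 2 = 1 := by
    have : (|e2| * s0) ^ 2 = e2 ^ 2 * s0 ^ 2 := by rw [mul_pow, sq_abs]
    rw [this]
    calc e1 ^ 2 + (e2 * c0) ^ 2 + e2 ^ 2 * s0 ^ 2 = e1 ^ 2 + e2 ^ 2 * (c0 ^ 2 + s0 ^ 2) := by ring
      _ = 1 := by rw [hc]; linarith
  have hl1 : l ≤ 1 := by
    nlinarith [sq_nonneg (e1 - n1), sq_nonneg (e2 * c0 - n2), sq_nonneg (|e2| * s0 - n3)]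
  refine ⟨e1 - l * n1, e2 * c0 - l * n2, |e2| * s0 - l * n3, ?_, ?_⟩
  · calc (e1 - l * n1) * n1 + (e2 * c0 - l * n2) * n2 + (|e2| * s0 - l * n3) * n3
        = (e1 * n1 + e2 * c0 * n2 + |e2| * s0 * n3) - l * (n1 ^ 2 + n2 ^ 2 + n3 ^ 2) := by ring
      _ = 0 := by rw [hn, ← hl]; ring
  · intro a b h1 h2
    have h3 : 0 ≤ a * n1 + b * c0 * n2 + |b| * s0 * n3 := by
      have : 0 ≤ 2 * r * (a * n1 + b * c0 * n2 + |b| * s0 * n3) := by
        rw [← h1]; positivity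
      by_contra hcon
      push Not at hcon
      have := mul_neg_of_pos_of_neg (show 0 < 2 * r by linarith) hcon
      linarith
    have h4 : a * n1 + b * c0 * n2 + |b| * s0 * n3 < a * e1 + b * e2 := by
      have : 2 * r * (a * n1 + b * c0 * n2 + |b| * s0 * n3) < 2 * r * (a * e1 + b * e2) := by
        rw [← h1]; exact h2
      exact lt_of_mul_lt_mul_left this (by linarith)
    have h5 : b * e2 ≤ b * c0 * (e2 * c0) + |b| * s0 * (|e2| * s0) := by
      have h6 : b * e2 ≤ |b| * |e2| := by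
        rw [← abs_mul]; exact le_abs_self _
      have h7 : b * e2 * s0 ^ 2 ≤ |b| * |e2| * s0 ^ 2 := by gcongr
      calc b * e2 = b * e2 * (c0 ^ 2 + s0 ^ 2) := by rw [hc]; ring
        _ = b * c0 * (e2 * c0) + b * e2 * s0 ^ 2 := by ring
        _ ≤ b * c0 * (e2 * c0) + |b| * |e2| * s0 ^ 2 := by linarith
        _ = _ := by ring
    have h8 : a * (e1 - l * n1) + b * c0 * (e2 * c0 - l * n2) + |b| * s0 * (|e2| * s0 - l * n3) =
        (a * e1 + b * c0 * (e2 * c0) + |b| * s0 * (|e2| * s0)) -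
          l * (a * n1 + b * c0 * n2 + |b| * s0 * n3) := by ring
    rw [h8]
    nlinarith

/-- the parameters of the folding -/
theorem q_param {r h p u q v e1 e2 f1 f2 g1 g2 k1 k2 : ℝ} (hr : 0 < r)
    (hh : 0 < h) (hu : 0 < u) (hv : 0 < v)
    (he : e1 ^ 2 + e2 ^ 2 = 1) (hf : f1 ^ 2 + f2 ^ 2 = 1) (hg : g1 ^ 2 + g2 ^ 2 = 1)
    (hk : k1 ^ 2 + k2 ^ 2 = 1)
    (w1 : h ^ 2 < 2 * r * (h * e1)) (w2 : p ^ 2 + u ^ 2 < 2 * r * (p * e1 + -u * e2))
    (w3 : q ^ 2 + v ^ 2 < 2 * r * (q * e1 + v * e2))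
    (y1 : h ^ 2 < 2 * r * (-h * f1))
    (y2 : (p - h) ^ 2 + u ^ 2 < 2 * r * ((p - h) * f1 + -u * f2))
    (y3 : (q - h) ^ 2 + v ^ 2 < 2 * r * ((q - h) * f1 + v * f2))
    (x1 : p ^ 2 + u ^ 2 < 2 * r * (-p * g1 + u * g2))
    (x2 : (h - p) ^ 2 + u ^ 2 < 2 * r * ((h - p) * g1 + u * g2))
    (z1 : q ^ 2 + v ^ 2 < 2 * r * (-q * k1 + -v * k2))
    (z2 : (h - q) ^ 2 + v ^ 2 < 2 * r * ((h - q) * k1 + -v * k2)) :
    ∃ c0 s0 n1 n2 n3 : ℝ, 0 < c0 ∧ 0 ≤ s0 ∧ c0 ^ 2 + s0 ^ 2 = 1 ∧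
      n1 ^ 2 + n2 ^ 2 + n3 ^ 2 = 1 ∧ 2 * r * n1 = h ∧
      p ^ 2 + u ^ 2 = 2 * r * (p * n1 + -u * c0 * n2 + u * s0 * n3) ∧
      q ^ 2 + v ^ 2 = 2 * r * (q * n1 + v * c0 * n2 + v * s0 * n3) ∧
      |n2| * s0 ≤ |n3| * c0 ∧ n3 ≠ 0 := by
  have hX := q_rad (r := r) (h := h) (p := p) (u := u) (e1 := e1) (e2 := -e2) (f1 := f1)
    (f2 := -f2) (g1 := g1) (g2 := -g2) hh hu (by nlinarith) (by nlinarith) (by nlinarith)
    w1 (by linarith) y1 (by linarith) (by linarith) (by linarith)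
  have hZ := q_rad (r := r) (h := h) (p := q) (u := v) (e1 := e1) (e2 := e2) (f1 := f1)
    (f2 := f2) (g1 := k1) (g2 := k2) hh hv he hf hk
    w1 w3 y1 y3 z1 z2
  clear w1 w2 w3 y1 y2 y3 x1 x2 z1 z2 he hf hg hk
  obtain ⟨kx, hkx⟩ : ∃ kx, kx = (p ^ 2 + u ^ 2 - p * h) / (2 * u) := ⟨_, rfl⟩
  obtain ⟨kz, hkz⟩ : ∃ kz, kz = (q ^ 2 + v ^ 2 - q * h) / (2 * v) := ⟨_, rfl⟩
  rw [← hkx] at hX
  rw [← hkz] at hZ
  have hkxu : 2 * u * kx = p ^ 2 + u ^ 2 - p * h := by rw [hkx]; field_simp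
  have hkzv : 2 * v * kz = q ^ 2 + v ^ 2 - q * h := by rw [hkz]; field_simp
  clear hkx hkz
  obtain ⟨n1, hn1⟩ : ∃ n1, n1 = h / (2 * r) := ⟨_, rfl⟩
  have hn1h : 2 * r * n1 = h := by rw [hn1]; field_simp
  obtain ⟨s, hs⟩ : ∃ s, s = (kz - kx) / (2 * r) := ⟨_, rfl⟩
  obtain ⟨t, ht⟩ : ∃ t, t = (kx + kz) / (2 * r) := ⟨_, rfl⟩
  have hsr : 2 * r * s = kz - kx := by rw [hs]; field_simp
  have htr : 2 * r * t = kx + kz := by rw [ht]; field_simp
  have hM : (|s| + |t|) ^ 2 < 1 - n1 ^ 2 := by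
    have h1 : r ^ 2 * (1 - n1 ^ 2) = r ^ 2 - (h / 2) ^ 2 := by
      rw [← hn1h]; ring
    have h2 : r * (t - s) = kx := by linarith
    have h3 : r * (t + s) = kz := by linarith
    have h4 : r ^ 2 * (t - s) ^ 2 < r ^ 2 * (1 - n1 ^ 2) := by
      rw [h1, ← mul_pow, h2]; linarith
    have h5 : r ^ 2 * (t + s) ^ 2 < r ^ 2 * (1 - n1 ^ 2) := by
      rw [h1, ← mul_pow, h3]; linarith
    have hr2 : 0 < r ^ 2 := by positivity
    have h6 : (t - s) ^ 2 < 1 - n1 ^ 2 := lt_of_mul_lt_mul_left h4 hr2.le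
    have h7 : (t + s) ^ 2 < 1 - n1 ^ 2 := lt_of_mul_lt_mul_left h5 hr2.le
    rcases abs_cases s with ⟨ha, _⟩ | ⟨ha, _⟩ <;> rcases abs_cases t with ⟨hb, _⟩ | ⟨hb, _⟩ <;>
      rw [ha, hb]
    · calc (s + t) ^ 2 = (t + s) ^ 2 := by ring
        _ < _ := h7
    · calc (s + -t) ^ 2 = (t - s) ^ 2 := by ring
        _ < _ := h6
    · calc (-s + t) ^ 2 = (t - s) ^ 2 := by ring
        _ < _ := h6
    · calc (-s + -t) ^ 2 = (t + s) ^ 2 := by ring
        _ < _ := h7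
  obtain ⟨c0, s0, n2, n3, hc0, hs0, hcs, hn2, hn3, hM2, hle, hn3ne⟩ := q_fold hM
  refine ⟨c0, s0, n1, n2, n3, hc0, hs0, hcs, by linarith, hn1h, ?_, ?_, hle, hn3ne⟩
  · have h1 : 2 * r * (p * n1 + -u * c0 * n2 + u * s0 * n3) =
        p * (2 * r * n1) - 2 * r * u * (n2 * c0) + 2 * r * u * (n3 * s0) := by ring
    rw [h1, hn2, hn3, hn1h]
    have h2 : p * h - 2 * r * u * s + 2 * r * u * t = p * h + u * (2 * r * t - 2 * r * s) := by
      ring
    rw [h2, hsr, htr]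
    linarith
  · have h1 : 2 * r * (q * n1 + v * c0 * n2 + v * s0 * n3) =
        q * (2 * r * n1) + 2 * r * v * (n2 * c0) + 2 * r * v * (n3 * s0) := by ring
    rw [h1, hn2, hn3, hn1h]
    have h2 : q * h + 2 * r * v * s + 2 * r * v * t = q * h + v * (2 * r * t + 2 * r * s) := by
      ring
    rw [h2, hsr, htr]
    linarith

/-- the coefficients of the crossing point -/
theorem q_coef {r h p u q v c0 s0 n1 n2 n3 : ℝ} (hr : 0 < r)
    (hh : 0 < h) (hu : 0 < u) (hv : 0 < v) (hc0 : 0 < c0) (hs0 : 0 ≤ s0)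
    (hn1h : 2 * r * n1 = h) (hle : |n2| * s0 ≤ |n3| * c0) (hn3ne : n3 ≠ 0) :
    ∃ α β γ δ κ : ℝ, 0 ≤ γ ∧ 0 ≤ δ ∧ (0 < γ ∨ 0 < δ) ∧
      r * n1 * (β - α) = γ * p + δ * q - (γ + δ) * (r * n1) ∧
      r * (α + β) = (γ + δ) * r - κ ∧
      γ * (-u * c0) + δ * (v * c0) = κ * n2 ∧
      γ * (u * s0) + δ * (v * s0) = κ * n3 := by
  obtain ⟨σ, hσ, hσn⟩ : ∃ σ : ℝ, σ ^ 2 = 1 ∧ σ * n3 = |n3| := by
    rcases abs_cases n3 with ⟨ha, _⟩ | ⟨ha, _⟩
    · exact ⟨1, by norm_num, by rw [ha]; ring⟩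
    · exact ⟨-1, by norm_num, by rw [ha]; ring⟩
  have hσ2 : |σ * n2| = |n2| := by
    rw [abs_mul]
    have : |σ| = 1 := by
      rw [← sq_eq_sq₀ (abs_nonneg _) (by norm_num), sq_abs, hσ]; norm_num
    rw [this, one_mul]
  have hle1 : σ * n2 * s0 ≤ |n3| * c0 := by
    calc σ * n2 * s0 ≤ |σ * n2| * s0 := by gcongr; exact le_abs_self _
      _ = |n2| * s0 := by rw [hσ2]
      _ ≤ _ := hle
  have hle2 : -(σ * n2 * s0) ≤ |n3| * c0 := by
    calc -(σ * n2 * s0) = (-(σ * n2)) * s0 := by ring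
      _ ≤ |σ * n2| * s0 := by gcongr; exact neg_le_abs _
      _ = |n2| * s0 := by rw [hσ2]
      _ ≤ _ := hle
  have hn3c : 0 < |n3| * c0 := mul_pos (abs_pos.2 hn3ne) hc0
  have hn1pos : 0 < n1 := by
    by_contra hcon
    push Not at hcon
    nlinarith
  obtain ⟨γ, hγ⟩ : ∃ γ, γ = v * (|n3| * c0 - σ * n2 * s0) := ⟨_, rfl⟩
  obtain ⟨δ, hδ⟩ : ∃ δ, δ = u * (|n3| * c0 + σ * n2 * s0) := ⟨_, rfl⟩
  obtain ⟨κ, hκ⟩ : ∃ κ, κ = σ * (2 * u * v * c0 * s0) := ⟨_, rfl⟩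
  refine ⟨(2 * (γ + δ) - (γ * p + δ * q) / (r * n1) - κ / r) / 2,
    ((γ * p + δ * q) / (r * n1) - κ / r) / 2, γ, δ, κ, ?_, ?_, ?_, ?_, ?_, ?_, ?_⟩
  · rw [hγ]; exact mul_nonneg hv.le (by linarith)
  · rw [hδ]; exact mul_nonneg hu.le (by linarith)
  · rcases lt_or_ge 0 (σ * n2 * s0) with hh | hh
    · right; rw [hδ]; exact mul_pos hu (by linarith)
    · left; rw [hγ]; exact mul_pos hv (by linarith)
  · field_simp; ring
  · field_simp; ring
  · rw [hγ, hδ, hκ]; ring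
  · have : κ * n3 = 2 * u * v * c0 * s0 * (σ * n3) := by rw [hκ]; ring
    rw [this, hσn, hγ, hδ]; ring

/-- sign of one coefficient -/
theorem q_sign {h P Q u v c0 s0 n1 n2 n3 m1 m2 m3 β γ δ κ τ : ℝ}
    (hγ0 : 0 ≤ γ) (hδ0 : 0 ≤ δ) (hγδ : 0 < γ ∨ 0 < δ)
    (hm0 : m1 * n1 + m2 * n2 + m3 * n3 = 0)
    (hc1 : γ * P + δ * Q = κ * n1 + τ)
    (hτ : τ = β * h)
    (hc2 : γ * (-u * c0) + δ * (v * c0) = κ * n2)
    (hc3 : γ * (u * s0) + δ * (v * s0) = κ * n3)
    (mY : 0 < h * m1) (mX : 0 < P * m1 + -u * c0 * m2 + u * s0 * m3)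
    (mZ : 0 < Q * m1 + v * c0 * m2 + v * s0 * m3) : 0 < β := by
  have key : β * (h * m1) = γ * (P * m1 + -u * c0 * m2 + u * s0 * m3) +
      δ * (Q * m1 + v * c0 * m2 + v * s0 * m3) := by
    have h1 : γ * (P * m1 + -u * c0 * m2 + u * s0 * m3) +
      δ * (Q * m1 + v * c0 * m2 + v * s0 * m3) = (γ * P + δ * Q) * m1 +
        (γ * (-u * c0) + δ * (v * c0)) * m2 + (γ * (u * s0) + δ * (v * s0)) * m3 := by ring
    rw [h1, hc2, hc3, hc1, hτ]
    have h4 : (κ * n1 + β * h) * m1 + κ * n2 * m2 + κ * n3 * m3 =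
        κ * (m1 * n1 + m2 * n2 + m3 * n3) + β * (h * m1) := by ring
    rw [h4, hm0]
    ring
  have hpos : 0 < β * (h * m1) := by
    rw [key]
    rcases hγδ with hh | hh
    · have := mul_pos hh mX
      have := mul_nonneg hδ0 mZ.le
      linarith
    · have := mul_nonneg hγ0 mX.le
      have := mul_pos hh mZ
      linarith
  by_contra hcon
  push Not at hcon
  have := mul_nonpos_of_nonpos_of_nonneg hcon mY.le
  linarith

theorem q_norm3 (a b c : ℝ) : ‖(!₂[a, b, c] : EuclideanSpace ℝ (Fin 3))‖ =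
    Real.sqrt (a ^ 2 + b ^ 2 + c ^ 2) := by
  rw [EuclideanSpace.norm_eq, Fin.sum_univ_three]
  simp

theorem q_dist3 (a b c a' b' c' : ℝ) :
    dist (!₂[a, b, c] : EuclideanSpace ℝ (Fin 3)) !₂[a', b', c'] =
      Real.sqrt ((a - a') ^ 2 + (b - b') ^ 2 + (c - c') ^ 2) := by
  rw [EuclideanSpace.dist_eq, Fin.sum_univ_three]
  simp [Real.dist_eq]

/-- the spherical inequality in coordinates -/
theorem q_geo (hQS : ST_QS) {r h p u q v c0 s0 n1 n2 n3 α β γ δ κ : ℝ} (hr : 0 < r)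
    (hh : 0 < h) (hhr : h < 2 * r) (hu : 0 < u) (hv : 0 < v)
    (hcs : c0 ^ 2 + s0 ^ 2 = 1)
    (hn : n1 ^ 2 + n2 ^ 2 + n3 ^ 2 = 1) (hn1h : 2 * r * n1 = h)
    (eX : p ^ 2 + u ^ 2 = 2 * r * (p * n1 + -u * c0 * n2 + u * s0 * n3))
    (eZ : q ^ 2 + v ^ 2 = 2 * r * (q * n1 + v * c0 * n2 + v * s0 * n3))
    (hα0 : 0 < α) (hβ0 : 0 < β) (hγ0 : 0 ≤ γ) (hδ0 : 0 ≤ δ)
    (hαβ1 : r * n1 * (β - α) = γ * p + δ * q - (γ + δ) * (r * n1))
    (hαβ2 : r * (α + β) = (γ + δ) * r - κ)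
    (hc2 : γ * (-u * c0) + δ * (v * c0) = κ * n2)
    (hc3 : γ * (u * s0) + δ * (v * s0) = κ * n3) :
    Real.arcsin (Real.sqrt (p ^ 2 + u ^ 2) / (2 * r)) +
      Real.arcsin (Real.sqrt ((h - q) ^ 2 + v ^ 2) / (2 * r)) ≤
    Real.arcsin (h / (2 * r)) +
      Real.arcsin (Real.sqrt ((p - q) ^ 2 + (u + v) ^ 2) / (2 * r)) := by
  have sqr : Real.sqrt (r ^ 2) = r := Real.sqrt_sq hr.le
  have hrn : r ^ 2 * (n1 ^ 2 + n2 ^ 2 + n3 ^ 2) = r ^ 2 := by rw [hn]; ring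
  have hcsu : ∀ u : ℝ, (u * c0) ^ 2 + (u * s0) ^ 2 = u ^ 2 := by
    intro u
    calc (u * c0) ^ 2 + (u * s0) ^ 2 = u ^ 2 * (c0 ^ 2 + s0 ^ 2) := by ring
      _ = u ^ 2 := by rw [hcs]; ring
  have hrn1 : r * n1 = h / 2 := by linarith
  obtain ⟨W, hW⟩ : ∃ W : EuclideanSpace ℝ (Fin 3), W = !₂[-(r * n1), -(r * n2), -(r * n3)] :=
    ⟨_, rfl⟩
  obtain ⟨Y, hY⟩ : ∃ Y : EuclideanSpace ℝ (Fin 3), Y = !₂[r * n1, -(r * n2), -(r * n3)] :=
    ⟨_, rfl⟩
  obtain ⟨X, hX⟩ : ∃ X : EuclideanSpace ℝ (Fin 3),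
    X = !₂[p - r * n1, -(u * c0) - r * n2, u * s0 - r * n3] := ⟨_, rfl⟩
  obtain ⟨Z, hZ⟩ : ∃ Z : EuclideanSpace ℝ (Fin 3),
    Z = !₂[q - r * n1, v * c0 - r * n2, v * s0 - r * n3] := ⟨_, rfl⟩
  have nW : ‖W‖ = r := by
    rw [hW, q_norm3]
    have : (-(r * n1)) ^ 2 + (-(r * n2)) ^ 2 + (-(r * n3)) ^ 2 = r ^ 2 := by
      rw [← hrn]; ring
    rw [this, sqr]
  have nY : ‖Y‖ = r := by
    rw [hY, q_norm3]
    have : (r * n1) ^ 2 + (-(r * n2)) ^ 2 + (-(r * n3)) ^ 2 = r ^ 2 := by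
      rw [← hrn]; ring
    rw [this, sqr]
  have nX : ‖X‖ = r := by
    rw [hX, q_norm3]
    have : (p - r * n1) ^ 2 + (-(u * c0) - r * n2) ^ 2 + (u * s0 - r * n3) ^ 2 = r ^ 2 := by
      have h1 : (p - r * n1) ^ 2 + (-(u * c0) - r * n2) ^ 2 + (u * s0 - r * n3) ^ 2 =
          p ^ 2 + ((u * c0) ^ 2 + (u * s0) ^ 2) -
            2 * r * (p * n1 + -u * c0 * n2 + u * s0 * n3) +
            r ^ 2 * (n1 ^ 2 + n2 ^ 2 + n3 ^ 2) := by ring
      rw [h1, hcsu, hrn, ← eX]; ring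
    rw [this, sqr]
  have nZ : ‖Z‖ = r := by
    rw [hZ, q_norm3]
    have : (q - r * n1) ^ 2 + (v * c0 - r * n2) ^ 2 + (v * s0 - r * n3) ^ 2 = r ^ 2 := by
      have h1 : (q - r * n1) ^ 2 + (v * c0 - r * n2) ^ 2 + (v * s0 - r * n3) ^ 2 =
          q ^ 2 + ((v * c0) ^ 2 + (v * s0) ^ 2) -
            2 * r * (q * n1 + v * c0 * n2 + v * s0 * n3) +
            r ^ 2 * (n1 ^ 2 + n2 ^ 2 + n3 ^ 2) := by ring
      rw [h1, hcsu, hrn, ← eZ]; ring
    rw [this, sqr]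
  have dWX : dist W X = Real.sqrt (p ^ 2 + u ^ 2) := by
    rw [hW, hX, q_dist3]
    congr 1
    have := hcsu u
    linarith [show (-(r * n1) - (p - r * n1)) ^ 2 + (-(r * n2) - (-(u * c0) - r * n2)) ^ 2 +
      (-(r * n3) - (u * s0 - r * n3)) ^ 2 = p ^ 2 + ((u * c0) ^ 2 + (u * s0) ^ 2) by ring]
  have dYZ : dist Y Z = Real.sqrt ((h - q) ^ 2 + v ^ 2) := by
    rw [hY, hZ, q_dist3]
    congr 1
    have := hcsu v
    rw [hrn1]
    linarith [show (h / 2 - (q - h / 2)) ^ 2 + (-(r * n2) - (v * c0 - r * n2)) ^ 2 +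
      (-(r * n3) - (v * s0 - r * n3)) ^ 2 = (h - q) ^ 2 + ((v * c0) ^ 2 + (v * s0) ^ 2) by ring]
  have dWY : dist W Y = h := by
    rw [hW, hY, q_dist3]
    have : (-(r * n1) - r * n1) ^ 2 + (-(r * n2) - -(r * n2)) ^ 2 + (-(r * n3) - -(r * n3)) ^ 2
        = h ^ 2 := by rw [hrn1]; ring
    rw [this, Real.sqrt_sq hh.le]
  have dXZ : dist X Z ≤ Real.sqrt ((p - q) ^ 2 + (u + v) ^ 2) := by
    rw [hX, hZ, q_dist3]
    apply Real.sqrt_le_sqrt
    have h1 : (p - r * n1 - (q - r * n1)) ^ 2 + (-(u * c0) - r * n2 - (v * c0 - r * n2)) ^ 2 +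
        (u * s0 - r * n3 - (v * s0 - r * n3)) ^ 2 =
        (p - q) ^ 2 + (u + v) ^ 2 * (c0 ^ 2 + s0 ^ 2) - 4 * u * v * s0 ^ 2 := by ring
    rw [h1, hcs]
    have : 0 ≤ 4 * u * v * s0 ^ 2 := by positivity
    linarith
  have hcomb : α • W + β • Y = γ • X + δ • Z := by
    have h1 : α * (-(r * n1)) + β * (r * n1) = γ * (p - r * n1) + δ * (q - r * n1) := by
      linarith
    have h2 : α * (-(r * n2)) + β * (-(r * n2)) =
        γ * (-(u * c0) - r * n2) + δ * (v * c0 - r * n2) := by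
      have : α * (-(r * n2)) + β * (-(r * n2)) = -(r * (α + β)) * n2 := by ring
      rw [this, hαβ2]
      linarith
    have h3 : α * (-(r * n3)) + β * (-(r * n3)) =
        γ * (u * s0 - r * n3) + δ * (v * s0 - r * n3) := by
      have : α * (-(r * n3)) + β * (-(r * n3)) = -(r * (α + β)) * n3 := by ring
      rw [this, hαβ2]
      linarith
    rw [hW, hX, hY, hZ]
    ext i
    fin_cases i
    · simpa using h1
    · simpa using h2
    · simpa using h3
  have hne : α • W + β • Y ≠ 0 := by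
    intro h0
    have h1 : ‖α • W‖ = ‖β • Y‖ := by
      rw [eq_neg_of_add_eq_zero_left h0, norm_neg]
    rw [norm_smul, norm_smul, nW, nY, Real.norm_of_nonneg hα0.le, Real.norm_of_nonneg hβ0.le] at h1
    have h2 : α = β := mul_right_cancel₀ hr.ne' h1
    rw [← h2, ← smul_add] at h0
    have h3 : W + Y = 0 := by
      rcases smul_eq_zero.1 h0 with h | h
      · exact absurd h hα0.ne'
      · exact h
    have h4 : Y = -W := by
      rw [eq_neg_iff_add_eq_zero, add_comm]; exact h3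
    have h5 : dist W Y = 2 * r := by
      rw [h4, dist_eq_norm, sub_neg_eq_add, ← two_smul ℝ W, norm_smul, nW]
      norm_num
    rw [dWY] at h5
    linarith
  have := hQS W X Y Z r α β γ δ hr nW nX nY nZ hα0.le hβ0.le hγ0 hδ0 hcomb hne
  rw [dWX, dYZ, dWY] at this
  refine this.trans ?_
  gcongr

/-- the quadrilateral inequality in coordinates -/
theorem q_real (hQS : ST_QS) {r h p u q v e1 e2 f1 f2 g1 g2 k1 k2 : ℝ} (hr : 0 < r)
    (hh : 0 < h) (hu : 0 < u) (hv : 0 < v)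
    (he : e1 ^ 2 + e2 ^ 2 = 1) (hf : f1 ^ 2 + f2 ^ 2 = 1) (hg : g1 ^ 2 + g2 ^ 2 = 1)
    (hk : k1 ^ 2 + k2 ^ 2 = 1)
    (w1 : h ^ 2 < 2 * r * (h * e1)) (w2 : p ^ 2 + u ^ 2 < 2 * r * (p * e1 + -u * e2))
    (w3 : q ^ 2 + v ^ 2 < 2 * r * (q * e1 + v * e2))
    (y1 : h ^ 2 < 2 * r * (-h * f1))
    (y2 : (p - h) ^ 2 + u ^ 2 < 2 * r * ((p - h) * f1 + -u * f2))
    (y3 : (q - h) ^ 2 + v ^ 2 < 2 * r * ((q - h) * f1 + v * f2))
    (x1 : p ^ 2 + u ^ 2 < 2 * r * (-p * g1 + u * g2))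
    (x2 : (h - p) ^ 2 + u ^ 2 < 2 * r * ((h - p) * g1 + u * g2))
    (z1 : q ^ 2 + v ^ 2 < 2 * r * (-q * k1 + -v * k2))
    (z2 : (h - q) ^ 2 + v ^ 2 < 2 * r * ((h - q) * k1 + -v * k2)) :
    Real.arcsin (Real.sqrt (p ^ 2 + u ^ 2) / (2 * r)) +
      Real.arcsin (Real.sqrt ((h - q) ^ 2 + v ^ 2) / (2 * r)) ≤
    Real.arcsin (h / (2 * r)) +
      Real.arcsin (Real.sqrt ((p - q) ^ 2 + (u + v) ^ 2) / (2 * r)) := by
  obtain ⟨c0, s0, n1, n2, n3, hc0, hs0, hcs, hn, hn1h, eX, eZ, hle, hn3ne⟩ :=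
    q_param hr hh hu hv he hf hg hk w1 w2 w3 y1 y2 y3 x1 x2 z1 z2
  obtain ⟨α, β, γ, δ, κ, hγ0, hδ0, hγδ, hαβ1, hαβ2, hc2, hc3⟩ :=
    q_coef (p := p) (q := q) hr hh hu hv hc0 hs0 hn1h hle hn3ne
  clear x1 x2 z1 z2 hg hk
  have hhr : h < 2 * r := by
    have h6 : e1 ≤ 1 := by nlinarith [sq_nonneg e2]
    have h7 : h * h < 2 * r * h := by
      calc h * h = h ^ 2 := by ring
        _ < 2 * r * (h * e1) := w1
        _ ≤ 2 * r * (h * 1) := by gcongr
        _ = _ := by ring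
    exact lt_of_mul_lt_mul_right h7 hh.le
  have hβ0 : 0 < β := by
    obtain ⟨m1, m2, m3, hm0, hm⟩ := q_lift (r := r) (c0 := c0) (s0 := s0) (n1 := n1) (n2 := n2)
      (n3 := n3) (e1 := e1) (e2 := e2) hr hcs hn he
    have mY := hm h 0 (by
      simp only [zero_mul, add_zero, abs_zero]
      rw [← hn1h]; ring) (by linarith)
    have mX := hm p (-u) (by rw [abs_neg, abs_of_pos hu, neg_sq]; exact eX) (by
      rw [neg_sq]; exact w2)
    have mZ := hm q v (by rw [abs_of_pos hv]; exact eZ) w3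
    rw [abs_neg, abs_of_pos hu] at mX
    rw [abs_of_pos hv] at mZ
    simp only [zero_mul, add_zero, abs_zero] at mY
    refine q_sign hγ0 hδ0 hγδ hm0 (τ := β * h) ?_ rfl hc2 hc3 mY mX mZ
    have h2 : γ * p + δ * q = r * n1 * (β - α) + (γ + δ) * (r * n1) := by linarith
    have h3 : κ = (γ + δ) * r - r * (α + β) := by linarith
    rw [h2, h3, ← hn1h]
    ring
  have hα0 : 0 < α := by
    obtain ⟨m1, m2, m3, hm0, hm⟩ := q_lift (r := r) (c0 := c0) (s0 := s0) (n1 := -n1) (n2 := n2)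
      (n3 := n3) (e1 := f1) (e2 := f2) hr hcs (by rw [neg_sq]; exact hn) hf
    have mW := hm (-h) 0 (by
      simp only [zero_mul, add_zero, abs_zero]
      rw [← hn1h]; ring) (by
      simp only [zero_mul, add_zero, neg_sq]
      linarith)
    have mX := hm (p - h) (-u) (by
      rw [abs_neg, abs_of_pos hu]
      have h1 : 2 * r * ((p - h) * -n1 + -u * c0 * n2 + u * s0 * n3) =
        2 * r * (p * n1 + -u * c0 * n2 + u * s0 * n3) - 2 * p * (2 * r * n1)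
          + h * (2 * r * n1) := by ring
      rw [h1, ← eX, hn1h]; ring) (by rw [neg_sq]; exact y2)
    have mZ := hm (q - h) v (by
      rw [abs_of_pos hv]
      have h1 : 2 * r * ((q - h) * -n1 + v * c0 * n2 + v * s0 * n3) =
        2 * r * (q * n1 + v * c0 * n2 + v * s0 * n3) - 2 * q * (2 * r * n1)
          + h * (2 * r * n1) := by ring
      rw [h1, ← eZ, hn1h]; ring) y3
    rw [abs_neg, abs_of_pos hu] at mX
    rw [abs_of_pos hv] at mZ
    simp only [zero_mul, add_zero, abs_zero] at mW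
    refine q_sign (h := -h) (P := p - h) (Q := q - h) hγ0 hδ0 hγδ hm0 (τ := α * -h)
      ?_ rfl hc2 hc3 mW mX mZ
    have h2 : γ * p + δ * q = r * n1 * (β - α) + (γ + δ) * (r * n1) := by linarith
    have h3 : κ = (γ + δ) * r - r * (α + β) := by linarith
    have h4 : γ * (p - h) + δ * (q - h) = γ * p + δ * q - (γ + δ) * h := by ring
    rw [h4, h2, h3, ← hn1h]
    ring
  exact q_geo hQS hr hh hhr hu hv hcs hn hn1h eX eZ hα0 hβ0 hγ0 hδ0 hαβ1 hαβ2 hc2 hc3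

theorem q_id (a b s t : ℝ) : Real.cos s * (a * Real.cos t + b * Real.sin t) =
    Real.cos t * (a * Real.cos s + b * Real.sin s) + Real.sin (t - s) * b := by
  rw [Real.sin_sub]; ring

/-- the sides of `x` and `z` with respect to the line `wy`, normalised angles -/
theorem q_sides0 {h p u q v t1 t2 t3 t4 : ℝ}
    (h1 : -(Real.pi / 2) < t1) (h1' : t1 < Real.pi / 2)
    (h12 : t1 < t2) (h23 : t2 < t3) (h34 : t3 < t4) (h41 : t4 < t1 + 2 * Real.pi)
    (w1 : 0 < Real.cos t1) (y1 : Real.cos t3 < 0)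
    (wx : 0 < p * Real.cos t1 + u * Real.sin t1)
    (wz : 0 < q * Real.cos t1 + v * Real.sin t1)
    (yx : 0 < (p - h) * Real.cos t3 + u * Real.sin t3)
    (yz : 0 < (q - h) * Real.cos t3 + v * Real.sin t3)
    (xw : 0 < -p * Real.cos t2 + -u * Real.sin t2)
    (xy : 0 < (h - p) * Real.cos t2 + -u * Real.sin t2)
    (zw : 0 < -q * Real.cos t4 + -v * Real.sin t4)
    (zy : 0 < (h - q) * Real.cos t4 + -v * Real.sin t4) : u < 0 ∧ 0 < v := by
  have hpi := Real.pi_pos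
  have h3 : Real.pi / 2 < t3 := by
    by_contra hcon
    push Not at hcon
    have := Real.cos_nonneg_of_neg_pi_div_two_le_of_le (by linarith : -(Real.pi / 2) ≤ t3) hcon
    linarith
  have h3' : t3 < 3 * Real.pi / 2 := by
    by_contra hcon
    push Not at hcon
    have := Real.cos_nonneg_of_neg_pi_div_two_le_of_le (x := t3 - 2 * Real.pi)
      (by linarith) (by linarith)
    rw [Real.cos_sub_two_pi] at this
    linarith
  constructor
  · rcases le_or_gt t2 (Real.pi / 2) with h2 | h2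
    · have hc2 : 0 ≤ Real.cos t2 :=
        Real.cos_nonneg_of_neg_pi_div_two_le_of_le (by linarith) h2
      have hs : 0 < Real.sin (t2 - t1) := Real.sin_pos_of_pos_of_lt_pi (by linarith) (by linarith)
      have hid := q_id p u t1 t2
      have e1 : Real.cos t1 * (p * Real.cos t2 + u * Real.sin t2) < 0 :=
        mul_neg_of_pos_of_neg w1 (by linarith)
      have e2 := mul_nonneg hc2 wx.le
      have e3 : Real.sin (t2 - t1) * u < 0 := by linarith
      by_contra hcon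
      push Not at hcon
      have := mul_nonneg hs.le hcon
      linarith
    · have hc2 : Real.cos t2 < 0 :=
        Real.cos_neg_of_pi_div_two_lt_of_lt h2 (by linarith)
      have hs : Real.sin (t2 - t3) < 0 :=
        Real.sin_neg_of_neg_of_neg_pi_lt (by linarith) (by linarith)
      have hid := q_id (p - h) u t3 t2
      have e1 : 0 < Real.cos t3 * ((p - h) * Real.cos t2 + u * Real.sin t2) :=
        mul_pos_of_neg_of_neg y1 (by linarith)
      have e2 := mul_neg_of_neg_of_pos hc2 yx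
      have e3 : 0 < Real.sin (t2 - t3) * u := by linarith
      by_contra hcon
      push Not at hcon
      have := mul_nonpos_of_nonpos_of_nonneg hs.le hcon
      linarith
  · rcases le_or_gt t4 (3 * Real.pi / 2) with h4 | h4
    · have hc4 : Real.cos t4 ≤ 0 :=
        Real.cos_nonpos_of_pi_div_two_le_of_le (by linarith) (by linarith)
      have hs : 0 < Real.sin (t4 - t3) :=
        Real.sin_pos_of_pos_of_lt_pi (by linarith) (by linarith)
      have hid := q_id (q - h) v t3 t4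
      have e1 : 0 < Real.cos t3 * ((q - h) * Real.cos t4 + v * Real.sin t4) :=
        mul_pos_of_neg_of_neg y1 (by linarith)
      have e2 := mul_nonpos_of_nonpos_of_nonneg hc4 yz.le
      have e3 : 0 < Real.sin (t4 - t3) * v := by linarith
      by_contra hcon
      push Not at hcon
      have := mul_nonpos_of_nonneg_of_nonpos hs.le hcon
      linarith
    · have hc4 : 0 < Real.cos t4 := by
        rw [← Real.cos_sub_two_pi]
        exact Real.cos_pos_of_mem_Ioo ⟨by linarith, by linarith⟩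
      have hs : Real.sin (t4 - t1) < 0 := by
        rw [← Real.sin_sub_two_pi]
        exact Real.sin_neg_of_neg_of_neg_pi_lt (by linarith) (by linarith)
      have hid := q_id q v t1 t4
      have e1 : Real.cos t1 * (q * Real.cos t4 + v * Real.sin t4) < 0 :=
        mul_neg_of_pos_of_neg w1 (by linarith)
      have e2 := mul_pos hc4 wz
      have e3 : Real.sin (t4 - t1) * v < 0 := by linarith
      by_contra hcon
      push Not at hcon
      have := mul_nonneg_of_nonpos_of_nonpos hs.le hcon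
      linarith

/-- the sides of `x` and `z` with respect to the line `wy` -/
theorem q_sides {h p u q v t1 t2 t3 t4 : ℝ}
    (h12 : t1 < t2) (h23 : t2 < t3) (h34 : t3 < t4) (h41 : t4 < t1 + 2 * Real.pi)
    (w1 : 0 < Real.cos t1) (y1 : Real.cos t3 < 0)
    (wx : 0 < p * Real.cos t1 + u * Real.sin t1)
    (wz : 0 < q * Real.cos t1 + v * Real.sin t1)
    (yx : 0 < (p - h) * Real.cos t3 + u * Real.sin t3)
    (yz : 0 < (q - h) * Real.cos t3 + v * Real.sin t3)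
    (xw : 0 < -p * Real.cos t2 + -u * Real.sin t2)
    (xy : 0 < (h - p) * Real.cos t2 + -u * Real.sin t2)
    (zw : 0 < -q * Real.cos t4 + -v * Real.sin t4)
    (zy : 0 < (h - q) * Real.cos t4 + -v * Real.sin t4) : u < 0 ∧ 0 < v := by
  have hpi := Real.pi_pos
  obtain ⟨k, hk, -⟩ := existsUnique_sub_zsmul_mem_Ico Real.two_pi_pos t1 (-Real.pi)
  simp only [zsmul_eq_mul, Set.mem_Ico] at hk
  have c1 := Real.cos_sub_int_mul_two_pi t1 k
  have hlt : t1 - k * (2 * Real.pi) < Real.pi / 2 := by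
    by_contra hcon
    push Not at hcon
    have := Real.cos_nonpos_of_pi_div_two_le_of_le hcon (by linarith [hk.2])
    linarith
  have hgt : -(Real.pi / 2) < t1 - k * (2 * Real.pi) := by
    by_contra hcon
    push Not at hcon
    have := Real.cos_nonpos_of_pi_div_two_le_of_le
      (x := -(t1 - k * (2 * Real.pi))) (by linarith) (by linarith [hk.1])
    rw [Real.cos_neg] at this
    linarith
  refine q_sides0 (h := h) (p := p) (q := q) (t1 := t1 - k * (2 * Real.pi))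
    (t2 := t2 - k * (2 * Real.pi)) (t3 := t3 - k * (2 * Real.pi))
    (t4 := t4 - k * (2 * Real.pi)) hgt hlt (by linarith) (by linarith) (by linarith)
    (by linarith) ?_ ?_ ?_ ?_ ?_ ?_ ?_ ?_ ?_ ?_ <;>
  simp only [Real.cos_sub_int_mul_two_pi, Real.sin_sub_int_mul_two_pi] <;> assumption

theorem q_e_re (t : ℝ) : (e t).re = Real.cos t := by
  unfold e; exact Complex.exp_ofReal_mul_I_re t

theorem q_e_im (t : ℝ) : (e t).im = Real.sin t := by
  unfold e; exact Complex.exp_ofReal_mul_I_im t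

theorem q_inner (c : ℂ) (ν t : ℝ) : (c * (starRingEnd ℂ) (e t)).re =
    (c * e (-ν)).re * Real.cos (t - ν) + (c * e (-ν)).im * Real.sin (t - ν) := by
  simp only [Complex.mul_re, Complex.mul_im, Complex.conj_re, Complex.conj_im, q_e_re, q_e_im,
    Real.cos_neg, Real.sin_neg, Real.cos_sub, Real.sin_sub]
  have := Real.sin_sq_add_cos_sq ν
  linear_combination (-(c.re * Real.cos t) - c.im * Real.sin t) * this

theorem q_norm_e (t : ℝ) : ‖e t‖ = 1 := by
  unfold e; exact Complex.norm_exp_ofReal_mul_I t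

theorem q_normsq (c : ℂ) (ν : ℝ) : ‖c‖ ^ 2 = (c * e (-ν)).re ^ 2 + (c * e (-ν)).im ^ 2 := by
  have h1 : ‖c‖ = ‖c * e (-ν)‖ := by rw [norm_mul, q_norm_e, mul_one]
  rw [h1, Complex.sq_norm, Complex.normSq_apply]
  ring

/-- rotated form of the support inequality -/
theorem q_sup {r : ℝ} {a b : ℂ} {t : ℝ} (ν : ℝ)
    (hs : dist a b ^ 2 < 2 * r * ((b - a) * (starRingEnd ℂ) (e t)).re) :
    ((b - a) * e (-ν)).re ^ 2 + ((b - a) * e (-ν)).im ^ 2 <
      2 * r * (((b - a) * e (-ν)).re * Real.cos (t - ν) +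
        ((b - a) * e (-ν)).im * Real.sin (t - ν)) := by
  rw [← q_normsq, ← q_inner, ← dist_eq_norm, dist_comm]
  exact hs

/-- positivity -/
theorem q_pos {r X A : ℝ} (hr : 0 < r) (hX : 0 ≤ X) (h : X < 2 * r * A) : 0 < A := by
  by_contra hcon
  push Not at hcon
  have := mul_nonpos_of_nonneg_of_nonpos (show 0 ≤ 2 * r by linarith) hcon
  linarith

/-- the strict case -/
theorem q_strict (hQS : ST_QS) {r : ℝ} {w x y z : ℂ} {t1 t2 t3 t4 : ℝ} (hr : 0 < r)
    (h12 : t1 < t2) (h23 : t2 < t3) (h34 : t3 < t4) (h41 : t4 < t1 + 2 * Real.pi)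
    (hwy : w ≠ y)
    (wx : dist w x ^ 2 < 2 * r * ((x - w) * (starRingEnd ℂ) (e t1)).re)
    (wy : dist w y ^ 2 < 2 * r * ((y - w) * (starRingEnd ℂ) (e t1)).re)
    (wz : dist w z ^ 2 < 2 * r * ((z - w) * (starRingEnd ℂ) (e t1)).re)
    (xw : dist x w ^ 2 < 2 * r * ((w - x) * (starRingEnd ℂ) (e t2)).re)
    (xy : dist x y ^ 2 < 2 * r * ((y - x) * (starRingEnd ℂ) (e t2)).re)
    (yw : dist y w ^ 2 < 2 * r * ((w - y) * (starRingEnd ℂ) (e t3)).re)
    (yx : dist y x ^ 2 < 2 * r * ((x - y) * (starRingEnd ℂ) (e t3)).re)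
    (yz : dist y z ^ 2 < 2 * r * ((z - y) * (starRingEnd ℂ) (e t3)).re)
    (zw : dist z w ^ 2 < 2 * r * ((w - z) * (starRingEnd ℂ) (e t4)).re)
    (zy : dist z y ^ 2 < 2 * r * ((y - z) * (starRingEnd ℂ) (e t4)).re) :
    dl r w x + dl r y z ≤ dl r w y + dl r x z := by
  obtain ⟨ν, hν⟩ : ∃ ν, ν = Complex.arg (y - w) := ⟨_, rfl⟩
  obtain ⟨h, hh⟩ : ∃ h, h = ‖y - w‖ := ⟨_, rfl⟩
  have hpos : 0 < h := by rw [hh]; exact norm_pos_iff.2 (sub_ne_zero.2 hwy.symm)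
  have hyw : (y - w) * e (-ν) = (h : ℂ) := by
    have h1 : y - w = (h : ℂ) * e ν := by
      rw [hh, hν]; unfold e; exact (Complex.norm_mul_exp_arg_mul_I (y - w)).symm
    rw [h1, mul_assoc]
    have : e ν * e (-ν) = 1 := by
      unfold e; rw [← Complex.exp_add]; simp
    rw [this, mul_one]
  obtain ⟨p, hp⟩ : ∃ p, p = ((x - w) * e (-ν)).re := ⟨_, rfl⟩
  obtain ⟨u, hu⟩ : ∃ u, u = ((x - w) * e (-ν)).im := ⟨_, rfl⟩
  obtain ⟨q, hq⟩ : ∃ q, q = ((z - w) * e (-ν)).re := ⟨_, rfl⟩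
  obtain ⟨v, hv⟩ : ∃ v, v = ((z - w) * e (-ν)).im := ⟨_, rfl⟩
  -- coordinates of the differences
  have dwx : (w - x) * e (-ν) = -((x - w) * e (-ν)) := by ring
  have dwz : (w - z) * e (-ν) = -((z - w) * e (-ν)) := by ring
  have dwy : (w - y) * e (-ν) = -(h : ℂ) := by rw [← hyw]; ring
  have dxy : (x - y) * e (-ν) = (x - w) * e (-ν) - (h : ℂ) := by rw [← hyw]; ring
  have dyx : (y - x) * e (-ν) = (h : ℂ) - (x - w) * e (-ν) := by rw [← hyw]; ring
  have dzy : (z - y) * e (-ν) = (z - w) * e (-ν) - (h : ℂ) := by rw [← hyw]; ring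
  have dyz : (y - z) * e (-ν) = (h : ℂ) - (z - w) * e (-ν) := by rw [← hyw]; ring
  have dxz : (x - z) * e (-ν) = (x - w) * e (-ν) - (z - w) * e (-ν) := by ring
  have nwx : dist w x = Real.sqrt (p ^ 2 + u ^ 2) := by
    rw [hp, hu, ← q_normsq, Real.sqrt_sq (norm_nonneg _), dist_comm, dist_eq_norm]
  have nyz : dist y z = Real.sqrt ((h - q) ^ 2 + v ^ 2) := by
    have h1 := q_normsq (y - z) ν
    rw [dyz] at h1
    simp only [Complex.sub_re, Complex.sub_im, Complex.ofReal_re, Complex.ofReal_im, ← hq,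
      ← hv] at h1
    rw [show (h - q) ^ 2 + v ^ 2 = (h - q) ^ 2 + (0 - v) ^ 2 by ring, ← h1,
      Real.sqrt_sq (norm_nonneg _), dist_eq_norm]
  have nxz : dist x z = Real.sqrt ((p - q) ^ 2 + (-u + v) ^ 2) := by
    have h1 := q_normsq (x - z) ν
    rw [dxz] at h1
    simp only [Complex.sub_re, Complex.sub_im, ← hq, ← hv, ← hp, ← hu] at h1
    rw [show (p - q) ^ 2 + (-u + v) ^ 2 = (p - q) ^ 2 + (u - v) ^ 2 by ring, ← h1,
      Real.sqrt_sq (norm_nonneg _), dist_eq_norm]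
  have nwy : dist w y = h := by rw [hh, dist_comm, dist_eq_norm]
  have wx' := q_sup ν wx
  have wy' := q_sup ν wy
  have wz' := q_sup ν wz
  have xw' := q_sup ν xw
  have xy' := q_sup ν xy
  have yw' := q_sup ν yw
  have yx' := q_sup ν yx
  have yz' := q_sup ν yz
  have zw' := q_sup ν zw
  have zy' := q_sup ν zy
  rw [dwx] at xw'
  rw [hyw] at wy'
  rw [dyx] at xy'
  rw [dwy] at yw'
  rw [dxy] at yx'
  rw [dzy] at yz'
  rw [dwz] at zw'
  rw [dyz] at zy'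
  simp only [Complex.sub_re, Complex.sub_im, Complex.ofReal_re, Complex.ofReal_im,
    Complex.neg_re, Complex.neg_im, ← hq, ← hv, ← hp, ← hu, neg_sq, sub_zero, zero_sub,
    neg_zero, zero_mul, add_zero] at wx' wy' wz' xw' xy' yw' yx' yz' zw' zy'
  have z0 : (0 : ℝ) ^ 2 = 0 := by norm_num
  rw [z0, add_zero] at wy' yw'
  have cw : 0 < Real.cos (t1 - ν) := by
    have := q_pos hr (sq_nonneg h) wy'
    by_contra hcon
    push Not at hcon
    have := mul_nonpos_of_nonneg_of_nonpos hpos.le hcon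
    linarith
  have cy : Real.cos (t3 - ν) < 0 := by
    have := q_pos hr (sq_nonneg h) yw'
    by_contra hcon
    push Not at hcon
    have := mul_nonneg hpos.le hcon
    linarith
  have hside := q_sides (h := h) (p := p) (u := u) (q := q) (v := v)
    (t1 := t1 - ν) (t2 := t2 - ν) (t3 := t3 - ν) (t4 := t4 - ν)
    (by linarith) (by linarith) (by linarith) (by linarith) cw cy
    (q_pos hr (by positivity) wx') (q_pos hr (by positivity) wz')
    (q_pos hr (by positivity) yx') (q_pos hr (by positivity) yz')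
    (q_pos hr (by positivity) xw') (q_pos hr (by positivity) xy')
    (q_pos hr (by positivity) zw') (q_pos hr (by positivity) zy')
  have hfin := q_real hQS (r := r) (h := h) (p := p) (u := -u) (q := q) (v := v)
    (e1 := Real.cos (t1 - ν)) (e2 := Real.sin (t1 - ν))
    (g1 := Real.cos (t2 - ν)) (g2 := Real.sin (t2 - ν))
    (f1 := Real.cos (t3 - ν)) (f2 := Real.sin (t3 - ν))
    (k1 := Real.cos (t4 - ν)) (k2 := Real.sin (t4 - ν))
    hr hpos (by linarith [hside.1]) hside.2 (Real.cos_sq_add_sin_sq _)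
    (Real.cos_sq_add_sin_sq _) (Real.cos_sq_add_sin_sq _) (Real.cos_sq_add_sin_sq _)
    wy' (by rw [neg_sq, neg_neg]; exact wx') wz' yw' (by rw [neg_sq, neg_neg]; exact yx') yz'
    (by rw [neg_sq]; exact xw') (by rw [neg_sq]; exact xy') zw' zy'
  unfold dl
  rw [nwx, nyz, nwy, nxz]
  rw [neg_sq] at hfin
  exact hfin

theorem q_supStrict {r r' : ℝ} {a b : ℂ} {t : ℝ} (hr : 0 < r) (hrr : r < r') (hab : a ≠ b)
    (hs : Sup r a t b) :
    dist a b ^ 2 < 2 * r' * ((b - a) * (starRingEnd ℂ) (e t)).re := by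
  unfold Sup at hs
  have h1 : 0 < dist a b ^ 2 := by
    have := dist_pos.2 hab
    positivity
  have h2 : 0 < ((b - a) * (starRingEnd ℂ) (e t)).re := by
    by_contra hcon
    push Not at hcon
    have := mul_nonpos_of_nonneg_of_nonpos (show 0 ≤ 2 * r by linarith) hcon
    linarith
  calc dist a b ^ 2 ≤ 2 * r * ((b - a) * (starRingEnd ℂ) (e t)).re := hs
    _ < 2 * r' * ((b - a) * (starRingEnd ℂ) (e t)).re := by gcongr

theorem q_dl_cont (r : ℝ) (hr : 0 < r) (a b : ℂ) :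
    Filter.Tendsto (fun s : ℝ => dl s a b) (nhdsWithin r (Set.Ioi r)) (nhds (dl r a b)) := by
  have : ContinuousAt (fun s : ℝ => dl s a b) r := by
    unfold dl
    apply Real.continuous_arcsin.continuousAt.comp
    apply ContinuousAt.div continuousAt_const (by fun_prop)
    positivity
  exact this.tendsto.mono_left nhdsWithin_le_nhds

theorem st_Q (hQS : ST_QS) : ST_Q := by
  intro r w x y z t1 t2 t3 t4 hr h12 h23 h34 h41 hwx hwy hwz hxy hxz hyz
    wx wy wz xw xy xz yw yx yz zw zx zy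
  have key : ∀ r' : ℝ, r < r' → dl r' w x + dl r' y z ≤ dl r' w y + dl r' x z := by
    intro r' hr'
    exact q_strict hQS (hr.trans hr') h12 h23 h34 h41 hwy
      (q_supStrict hr hr' hwx wx) (q_supStrict hr hr' hwy wy) (q_supStrict hr hr' hwz wz)
      (q_supStrict hr hr' hwx.symm xw) (q_supStrict hr hr' hxy xy)
      (q_supStrict hr hr' hwy.symm yw) (q_supStrict hr hr' hxy.symm yx)
      (q_supStrict hr hr' hyz yz)
      (q_supStrict hr hr' hwz.symm zw) (q_supStrict hr hr' hyz.symm zy)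
  refine le_of_tendsto_of_tendsto (b := nhdsWithin r (Set.Ioi r))
    ((q_dl_cont r hr w x).add (q_dl_cont r hr y z))
    ((q_dl_cont r hr w y).add (q_dl_cont r hr x z)) ?_
  filter_upwards [self_mem_nhdsWithin] with s hs
  exact key s hs

end AX
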