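import Mathlib

/-!
MP_efd95c_co (Alexander's conjecture): module statements.
Blueprint: /team-store/ax_blueprint.md
-/

set_option autoImplicit false

open scoped MeasureTheory ENNReal
open Complex

noncomputable section

namespace AX

/-- the intersection of the closed disks with centres `c i` and radius `r` -/
def K {n : ℕ} (r : ℝ) (c : Fin n → ℂ) : Set ℂ := ⋂ i, Metric.closedBall (c i) r

/-- the unit vector of angle `θ` -/
def e (θ : ℝ) : ℂ := Complex.exp (θ * I)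

/-- the angles of the points of the `i`-th circle which lie in the intersection of the disks -/
def T {n : ℕ} (r : ℝ) (c : Fin n → ℂ) (i : Fin n) : Set ℝ := {θ | c i + (r : ℂ) * e θ ∈ K r c}

/-- half of the angle under which a chord of length `|x - y|` of a circle of radius `r` is seen
from the centre; `2 r dl r x y` is the length of the short arc of radius `r` from `x` to `y` -/
def dl (r : ℝ) (x y : ℂ) : ℝ := Real.arcsin (dist x y / (2 * r))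

/-- the closed disk of radius `r` through `a` with centre `a + r e(t)` contains `b` -/
def Sup (r : ℝ) (a : ℂ) (t : ℝ) (b : ℂ) : Prop :=
  dist a b ^ 2 ≤ 2 * r * ((b - a) * (starRingEnd ℂ) (e t)).re

/-- length of the closed tour `f 0, f 1, .., f m, f 0` -/
def tour {ι : Type} (D : ι → ι → ℝ) {m : ℕ} (f : Fin (m + 1) → ι) : ℝ :=
  ∑ k : Fin m, D (f k.castSucc) (f k.succ) + D (f (Fin.last m)) (f 0)

/-- length of circular arcs -/
def ST_ARC : Prop := ∀ (c : ℂ) (r a : ℝ) (S : Set ℝ), 0 < r → MeasurableSet S →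
  S ⊆ Set.Ico a (a + 2 * Real.pi) →
  μH[1] ((fun θ : ℝ => c + (r : ℂ) * e θ) '' S) = ENNReal.ofReal r * MeasureTheory.volume S

/-- description of the sets `T` by inequalities -/
def ST_TSUP : Prop := ∀ (n : ℕ) (r : ℝ) (c : Fin n → ℂ) (i : Fin n) (θ : ℝ), 0 < r →
  (θ ∈ T r c i ↔ ∀ j, Sup r (c i) θ (c j))

/-- the boundary length of an intersection of congruent disks -/
def ST_PER : Prop := ∀ (n : ℕ) (r : ℝ) (c : Fin (n + 1) → ℂ) (s : Fin (n + 1) → ℝ), 0 < r →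
  Function.Injective c →
  μH[1] (frontier (K r c)) = ENNReal.ofReal r *
    ∑ i, MeasureTheory.volume (T r c i ∩ Set.Ico (s i) (s i + 2 * Real.pi))

/-- the sets `T` are `2π`-periodic closed arcs of length less than `π` -/
def ST_HA : Prop := ∀ (n : ℕ) (r : ℝ) (c : Fin (n + 2) → ℂ) (i : Fin (n + 2)), 0 < r →
  Function.Injective c → (T r c i).Nonempty →
  ∃ a b : ℝ, a ≤ b ∧ b < a + Real.pi ∧
    ∀ θ, θ ∈ T r c i ↔ ∃ z : ℤ, a + 2 * Real.pi * z ≤ θ ∧ θ ≤ b + 2 * Real.pi * z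

/-- the gap after the arc `T i` -/
def ST_HB : Prop := ∀ (n : ℕ) (r : ℝ) (c : Fin (n + 2) → ℂ) (i : Fin (n + 2)) (b : ℝ), 0 < r →
  Function.Injective c → b ∈ T r c i →
  (∃ δ > 0, ∀ θ, b < θ → θ < b + δ → θ ∉ T r c i) →
  ∃ j, j ≠ i ∧ b + 2 * dl r (c i) (c j) ∈ T r c j ∧
    ∀ k, ∀ θ ∈ T r c k, ¬ (b < θ ∧ θ < b + 2 * dl r (c i) (c j))

/-- sorting arcs on the circle (abstract) -/
def ST_HC : Prop := ∀ (n : ℕ) (S : Fin (n + 2) → Set ℝ) (a b : Fin (n + 2) → ℝ)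
  (D : Fin (n + 2) → Fin (n + 2) → ℝ),
  (∀ i, a i ≤ b i) → (∀ i, b i < a i + 2 * Real.pi) →
  (∀ i θ, θ ∈ S i ↔ ∃ z : ℤ, a i + 2 * Real.pi * z ≤ θ ∧ θ ≤ b i + 2 * Real.pi * z) →
  (∀ i j, i ≠ j → Disjoint (S i) (S j)) →
  (∀ i, ∃ j, j ≠ i ∧ 0 < D i j ∧ b i + D i j ∈ S j ∧
    ∀ k, ∀ θ ∈ S k, ¬ (b i < θ ∧ θ < b i + D i j)) →
  ∃ (σ : Equiv.Perm (Fin (n + 2))) (a' b' : Fin (n + 2) → ℝ),
    (∀ k, a' k ≤ b' k) ∧
    (∀ k, S (σ k) ∩ Set.Ico (a' k) (a' k + 2 * Real.pi) = Set.Icc (a' k) (b' k)) ∧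
    (∀ k : Fin (n + 1), b' k.castSucc + D (σ k.castSucc) (σ k.succ) = a' k.succ) ∧
    b' (Fin.last (n + 1)) + D (σ (Fin.last (n + 1))) (σ 0) = a' 0 + 2 * Real.pi

/-- cyclic order of the disks along the boundary -/
def ST_HULL : Prop := ∀ (n : ℕ) (r : ℝ) (c : Fin (n + 2) → ℂ), 0 < r →
  Function.Injective c → (∀ i, (T r c i).Nonempty) →
  ∃ (σ : Equiv.Perm (Fin (n + 2))) (a b : Fin (n + 2) → ℝ),
    (∀ k, a k ≤ b k) ∧
    (∀ k, T r c (σ k) ∩ Set.Ico (a k) (a k + 2 * Real.pi) = Set.Icc (a k) (b k)) ∧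
    (∀ k : Fin (n + 1), b k.castSucc + 2 * dl r (c (σ k.castSucc)) (c (σ k.succ)) = a k.succ) ∧
    b (Fin.last (n + 1)) + 2 * dl r (c (σ (Fin.last (n + 1)))) (c (σ 0)) = a 0 + 2 * Real.pi

/-- perimeter formula and cyclic order -/
def ST_FORM : Prop := ∀ (n : ℕ) (r : ℝ) (c : Fin (n + 2) → ℂ), 0 < r →
  Function.Injective c → (∀ i, (T r c i).Nonempty) →
  ∃ (σ : Equiv.Perm (Fin (n + 2))) (t : Fin (n + 2) → ℝ), StrictMono t ∧
    t (Fin.last (n + 1)) < t 0 + 2 * Real.pi ∧ (∀ k, t k ∈ T r c (σ k)) ∧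
    μH[1] (frontier (K r c)) = ENNReal.ofReal
      (2 * r * (Real.pi - tour (fun i j => dl r (c i) (c j)) (fun k => σ k)))

/-- the quadrilateral inequality -/
def ST_Q : Prop := ∀ (r : ℝ) (w x y z : ℂ) (t₁ t₂ t₃ t₄ : ℝ), 0 < r →
  t₁ < t₂ → t₂ < t₃ → t₃ < t₄ → t₄ < t₁ + 2 * Real.pi →
  w ≠ x → w ≠ y → w ≠ z → x ≠ y → x ≠ z → y ≠ z →
  Sup r w t₁ x → Sup r w t₁ y → Sup r w t₁ z →
  Sup r x t₂ w → Sup r x t₂ y → Sup r x t₂ z →
  Sup r y t₃ w → Sup r y t₃ x → Sup r y t₃ z →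
  Sup r z t₄ w → Sup r z t₄ x → Sup r z t₄ y →
  dl r w x + dl r y z ≤ dl r w y + dl r x z

/-- four vectors of the same norm, two crossing segments -/
def ST_QS : Prop := ∀ (W X Y Z : EuclideanSpace ℝ (Fin 3)) (r α β γ δ : ℝ), 0 < r →
  ‖W‖ = r → ‖X‖ = r → ‖Y‖ = r → ‖Z‖ = r → 0 ≤ α → 0 ≤ β → 0 ≤ γ → 0 ≤ δ →
  α • W + β • Y = γ • X + δ • Z → α • W + β • Y ≠ 0 →
  Real.arcsin (dist W X / (2 * r)) + Real.arcsin (dist Y Z / (2 * r)) ≤
    Real.arcsin (dist W Y / (2 * r)) + Real.arcsin (dist X Z / (2 * r))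

/-- the shortest tour for a Kalmanson metric -/
def ST_KAL : Prop := ∀ (m : ℕ) (D : Fin (m + 1) → Fin (m + 1) → ℝ), (∀ i j, D i j = D j i) →
  (∀ i j k l, i < j → j < k → k < l →
    D i j + D k l ≤ D i k + D j l ∧ D i l + D j k ≤ D i k + D j l) →
  ∀ f : Fin (m + 1) → Fin (m + 1), Function.Injective f → tour D (fun i => i) ≤ tour D f

/-- monotonicity of the boundary length -/
def ST_MONO : Prop := ∀ (n : ℕ) (r : ℝ) (c : Fin (n + 1) → ℂ) (L : Set ℂ), 0 < r →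
  K r c ⊆ L → IsCompact L → μH[1] (frontier (K r c)) ≤ μH[1] (frontier L)

/-- Kirszbraun's theorem for disks -/
def ST_KIRS : Prop := ∀ (n : ℕ) (r : ℝ) (p q : Fin n → ℂ),
  (∀ i j, dist (q i) (q j) ≤ dist (p i) (p j)) → (K r p).Nonempty → (K r q).Nonempty

/-- a minimal subfamily with the same intersection: every circle touches the intersection -/
def ST_MIN : Prop := ∀ (n : ℕ) (r : ℝ) (q : Fin n → ℂ) (J : Finset (Fin n)), 0 < r →
  (K r q).Nonempty → (⋂ i ∈ J, Metric.closedBall (q i) r) = K r q →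
  ∃ (m : ℕ) (g : Fin m → Fin n), Function.Injective (fun i => q (g i)) ∧ (∀ i, g i ∈ J) ∧
    K r (fun i => q (g i)) = K r q ∧ ∀ i, (T r (fun i => q (g i)) i).Nonempty

/-- every closed tour bounds the perimeter -/
def ST_TOUR : Prop := ∀ (n : ℕ) (r : ℝ) (c : Fin (n + 2) → ℂ) (f : Fin (n + 2) → Fin (n + 2)),
  0 < r → Function.Injective c → (∀ i, (T r c i).Nonempty) → Function.Injective f →
  ENNReal.ofReal (2 * r * (Real.pi - tour (fun i j => dl r (c i) (c j)) f))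
    ≤ μH[1] (frontier (K r c))

/-- the theorem in the complex plane -/
def ST_CPX : Prop := ∀ (n : ℕ) (r : ℝ) (p q : Fin n → ℂ) (J : Finset (Fin n)), 0 < r →
  (∀ i j, dist (q i) (q j) ≤ dist (p i) (p j)) →
  (⋂ i ∈ J, Metric.closedBall (q i) r) = (⋂ i, Metric.closedBall (q i) r) →
  (∀ i ∈ J, ∃ x, dist x (p i) = r ∧ ∀ j ∈ J, dist x (p j) ≤ r) →
  μH[1] (frontier (⋂ i, Metric.closedBall (p i) r)) ≤
    μH[1] (frontier (⋂ i, Metric.closedBall (q i) r))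

/-- the theorem -/
def ST_MAIN : Prop := ∀ (n : ℕ) (r : ℝ) (p q : Fin n → EuclideanSpace ℝ (Fin 2))
  (J : Finset (Fin n)), 0 < r →
  (∀ i j, dist (q i) (q j) ≤ dist (p i) (p j)) →
  (⋂ i ∈ J, Metric.closedBall (q i) r) = (⋂ i, Metric.closedBall (q i) r) →
  (∀ i ∈ J, ∃ x, dist x (p i) = r ∧ ∀ j ∈ J, dist x (p j) ≤ r) →
  μH[1] (frontier (⋂ i, Metric.closedBall (p i) r)) ≤
    μH[1] (frontier (⋂ i, Metric.closedBall (q i) r))

end AX
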